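import Pool.Agent.MP_a88b1d_nt.H42.Spec

/-! Row RAM: the quaternion algebra is ramified exactly at the primes dividing `pp * qq`. -/

open Polynomial Quaternion Filter Topology WithZero

noncomputable section

namespace Pool.Agent.MP_a88b1d_nt.H48

open Pool.Agent.MP_a88b1d_nt.H42

section General
variable {K : Type} [Field K] [Valued K ℤᵐ⁰]

theorem nonarch : NonarchimedeanAddGroup K where
  is_nonarchimedean U hU := by
    obtain ⟨γ, hγ⟩ := Valued.mem_nhds_zero.1 hU
    refine ⟨⟨(Valued.v : Valuation K ℤᵐ⁰).restrict.ltAddSubgroup γ, ?_⟩, hγ⟩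
    exact Valued.isOpen_ball K (γ : _)

/-- The terms of the Artin-Schreier series. -/
def term (t a : K) : ℕ → K
  | 0 => a
  | k + 1 => t * term t a k ^ 2

theorem term_le (t a : K) (ht : Valued.v t ≤ 1) (ha : Valued.v a < 1) (k : ℕ) :
    Valued.v (term t a k) ≤ Valued.v a ^ (k + 1) := by
  induction k with
  | zero => simp [term]
  | succ k ih =>
    rw [term, map_mul, map_pow]
    calc Valued.v t * Valued.v (term t a k) ^ 2
        ≤ 1 * (Valued.v a ^ (k + 1)) ^ 2 :=
          mul_le_mul' ht (pow_le_pow_left₀ zero_le ih 2)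
      _ = Valued.v a ^ ((k + 1) * 2) := by rw [one_mul, ← pow_mul]
      _ ≤ Valued.v a ^ (k + 1 + 1) := pow_le_pow_right_of_le_one' ha.le (by omega)

theorem term_tendsto (t a : K) (ht : Valued.v t ≤ 1) (ha : Valued.v a < 1) :
    Tendsto (term t a) atTop (𝓝 0) := by
  simp only [(Valued.hasBasis_nhds_zero _ _).tendsto_right_iff, Set.mem_ofPred_eq,
    eventually_atTop, forall_const]
  intro y
  obtain ⟨n, hn⟩ := exists_pow_lt₀ ha
    (Units.map (MonoidWithZeroHom.ValueGroup₀.embedding
      (f := (.ofClass (Valued.v : Valuation K ℤᵐ⁰)))) y)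
  refine ⟨n, fun m hm ↦ ?_⟩
  rw [Valuation.restrict_lt_iff_lt_embedding]
  refine hn.trans_le' ((term_le t a ht ha m).trans ?_)
  exact pow_le_pow_right_of_le_one' ha.le (by omega)

theorem exists_root [CompleteSpace K] (h2 : (2 : K) = 0) (t a : K) (ht : Valued.v t ≤ 1)
    (ha : Valued.v a < 1) : ∃ y : K, y = a + t * y ^ 2 := by
  have := nonarch (K := K)
  have hs : Summable (term t a) :=
    NonarchimedeanAddGroup.summable_of_tendsto_cofinite_zero
      (by rw [Nat.cofinite_eq_atTop]; exact term_tendsto t a ht ha)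
  obtain ⟨y, hy⟩ := hs
  let φ : K →+ K :=
    { toFun := fun z => t * z ^ 2
      map_zero' := by simp
      map_add' := fun z w => by linear_combination (t * z * w) * h2 }
  have hφ : Continuous φ := by
    change Continuous fun z : K => t * z ^ 2
    fun_prop
  have h1 : HasSum (fun k => term t a (k + 1)) (t * y ^ 2) := hy.map φ hφ
  have h3 := (hasSum_nat_add_iff 1).1 h1
  refine ⟨y, ?_⟩
  have := hy.unique h3
  simpa [term, add_comm] using this

/-- The norm form of the unramified quadratic extension has square values. -/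
theorem val_form (t : K) (ht : Valued.v t ≤ 1)
    (han : ∀ y : K, Valued.v y ≤ 1 → Valued.v (y ^ 2 + y + t) = 1) (a b : K) :
    Valued.v (a ^ 2 + a * b + t * b ^ 2) = max (Valued.v a) (Valued.v b) ^ 2 := by
  rcases le_or_gt (Valued.v a) (Valued.v b) with h | h
  · rw [max_eq_right h]
    by_cases hb : b = 0
    · subst hb
      have : a = 0 := by simpa using h
      simp [this]
    · have hb' : Valued.v b ≠ 0 := by simpa using hb
      have h1 := han (a / b) (by rw [map_div₀]; exact div_le_one_of_le₀ h zero_le)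
      have e : a ^ 2 + a * b + t * b ^ 2 = b ^ 2 * ((a / b) ^ 2 + a / b + t) := by
        field_simp
      rw [e, map_mul, h1, mul_one, map_pow]
  · rw [max_eq_left h.le]
    have ha' : Valued.v a ≠ 0 := (lt_of_le_of_lt zero_le h).ne'
    have h0 : 0 < Valued.v a := lt_of_le_of_lt zero_le h
    have h1 : Valued.v (a * b) < Valued.v (a ^ 2) := by
      rw [map_mul, map_pow, sq]
      exact mul_lt_mul_of_pos_left h h0
    have h2 : Valued.v (t * b ^ 2) < Valued.v (a ^ 2) := by
      rw [map_mul, map_pow, map_pow]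
      calc Valued.v t * Valued.v b ^ 2 ≤ 1 * Valued.v b ^ 2 := mul_le_mul_left ht _
        _ = Valued.v b ^ 2 := one_mul _
        _ < Valued.v a ^ 2 := pow_lt_pow_left₀ h zero_le (by norm_num)
    rw [add_assoc, Valuation.map_add_eq_of_lt_left _ (Valuation.map_add_lt _ h1 h2), map_pow]

theorem sq_ne (x y : ℤᵐ⁰) (h : x ^ 2 = exp (-1) * y ^ 2) : x = 0 ∧ y = 0 := by
  by_cases hy : y = 0
  · subst hy
    exact ⟨by simpa using h, rfl⟩
  · exfalso
    have hx : x ≠ 0 := by
      rintro rfl
      have h' : exp (-1 : ℤ) * y ^ 2 = 0 := by simpa using h.symm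
      rcases mul_eq_zero.1 h' with h' | h'
      · exact exp_ne_zero h'
      · exact hy (pow_eq_zero_iff (by norm_num) |>.1 h')
    rw [← exp_log hx, ← exp_log hy, ← exp_nsmul, ← exp_nsmul, ← exp_add, exp_inj] at h
    simp only [nsmul_eq_mul, Nat.cast_ofNat] at h
    omega

end General

section Quat
variable {K : Type} [Field K]

theorem mul_star_eq (t n : K) (h2 : (2 : K) = 0) (x : ℍ[K, t, 1, n]) :
    x * star x = algebraMap K _ (x.re ^ 2 + x.re * x.imI + t * x.imI ^ 2 +
      n * (x.imJ ^ 2 + x.imJ * x.imK + t * x.imK ^ 2)) := by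
  generalize hN : x.re ^ 2 + x.re * x.imI + t * x.imI ^ 2 +
      n * (x.imJ ^ 2 + x.imJ * x.imK + t * x.imK ^ 2) = N
  ext
  · simp
    linear_combination hN + (-(t * x.imI ^ 2) - n * x.imJ ^ 2 - n * x.imJ * x.imK) * h2
  · simp; ring
  · simp; ring
  · simp; ring

theorem star_mul_eq (t n : K) (h2 : (2 : K) = 0) (x : ℍ[K, t, 1, n]) :
    star x * x = algebraMap K _ (x.re ^ 2 + x.re * x.imI + t * x.imI ^ 2 +
      n * (x.imJ ^ 2 + x.imJ * x.imK + t * x.imK ^ 2)) := by
  generalize hN : x.re ^ 2 + x.re * x.imI + t * x.imI ^ 2 +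
      n * (x.imJ ^ 2 + x.imJ * x.imK + t * x.imK ^ 2) = N
  ext
  · simp
    linear_combination hN + (-(t * x.imI ^ 2) - n * x.imJ ^ 2 - n * x.imJ * x.imK) * h2
  · simp; ring
  · simp; ring
  · simp; ring

theorem isUnit_of_nrd (t n : K) (h2 : (2 : K) = 0) (x : ℍ[K, t, 1, n])
    (h : x.re ^ 2 + x.re * x.imI + t * x.imI ^ 2 +
      n * (x.imJ ^ 2 + x.imJ * x.imK + t * x.imK ^ 2) ≠ 0) : IsUnit x := by
  set N := x.re ^ 2 + x.re * x.imI + t * x.imI ^ 2 +
      n * (x.imJ ^ 2 + x.imJ * x.imK + t * x.imK ^ 2) with hN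
  refine ⟨⟨x, N⁻¹ • star x, ?_, ?_⟩, rfl⟩
  · rw [mul_smul_comm, mul_star_eq t n h2, ← hN, Algebra.algebraMap_eq_smul_one, smul_smul,
      inv_mul_cancel₀ h, one_smul]
  · rw [smul_mul_assoc, star_mul_eq t n h2, ← hN, Algebra.algebraMap_eq_smul_one, smul_smul,
      inv_mul_cancel₀ h, one_smul]

end Quat

/-- Modulo a prime that divides `T^8 + T + 1`, the polynomial `Y^2 + Y + T` has no root. -/
theorem no_root (I : Ideal A) (hI : I ≠ ⊤) (hn : pp * qq ∈ I) (a : A) : a ^ 2 + a + X ∉ I := by
  intro ha
  let m := Ideal.Quotient.mk I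
  have h2 : (2 : A ⧸ I) = 0 := by
    have : (2 : A) = 0 := by simpa [one_add_one_eq_two] using add_self_A 1
    rw [← map_ofNat m 2, this, map_zero]
  have hx : m X ^ 8 = m X + 1 := by
    have := Ideal.Quotient.eq_zero_iff_mem.2 hn
    rw [nn_eq'] at this
    simp only [map_add, map_pow, map_one] at this
    linear_combination this - (m X + 1) * h2
  have sq : ∀ u w : A ⧸ I, (u + w) ^ 2 = u ^ 2 + w ^ 2 := fun u w => by
    linear_combination (u * w) * h2
  have p4 : ∀ u w : A ⧸ I, (u + w) ^ 4 = u ^ 4 + w ^ 4 := fun u w => by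
    rw [show (4 : ℕ) = 2 * 2 from rfl, pow_mul, pow_mul, pow_mul, sq, sq]
  have p8 : ∀ u w : A ⧸ I, (u + w) ^ 8 = u ^ 8 + w ^ 8 := fun u w => by
    rw [show (8 : ℕ) = 4 * 2 from rfl, pow_mul, pow_mul, pow_mul, p4, sq]
  have p64 : ∀ u w : A ⧸ I, (u + w) ^ 64 = u ^ 64 + w ^ 64 := fun u w => by
    rw [show (64 : ℕ) = 8 * 8 from rfl, pow_mul, pow_mul, pow_mul, p8, p8]
  have hx64 : m X ^ 64 = m X := by
    rw [show (64 : ℕ) = 8 * 8 from rfl, pow_mul, hx, p8, hx]
    linear_combination h2
  have hall : ∀ f : A, m f ^ 64 = m f := by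
    intro f
    induction f using Polynomial.induction_on' with
    | add p q hp hq => rw [map_add, p64, hp, hq]
    | monomial n c =>
      have : c = 0 ∨ c = 1 := by revert c; decide
      rcases this with rfl | rfl
      · simp
      · rw [monomial_one_right_eq_X_pow, map_pow, ← pow_mul, mul_comm, pow_mul, hx64]
  have h1 : m a ^ 2 = m a + m X := by
    have := Ideal.Quotient.eq_zero_iff_mem.2 ha
    simp only [map_add, map_pow] at this
    linear_combination this - (m a + m X) * h2
  have h4 : m a ^ 4 = m a + m X + m X ^ 2 := by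
    rw [show (4 : ℕ) = 2 * 2 from rfl, pow_mul, h1, sq, h1]
  have h8 : m a ^ 8 = m a + (m X + m X ^ 2 + m X ^ 4) := by
    rw [show (8 : ℕ) = 4 * 2 from rfl, pow_mul, h4, sq, sq, h1]
    ring
  have h64 : m a ^ 64 = m a + 1 := by
    rw [show (64 : ℕ) = 8 * 8 from rfl, pow_mul, h8, p8, p8, p8, h8, ← pow_mul, ← pow_mul,
      mul_comm 2 8, mul_comm 4 8, pow_mul, pow_mul, hx, sq, p4]
    linear_combination (m X + m X ^ 2 + m X ^ 4 + 1) * h2
  have h0 : (1 : A ⧸ I) = 0 := by linear_combination h64.symm.trans (hall a)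
  exact hI ((Ideal.eq_top_iff_one I).2 (Ideal.Quotient.eq_zero_iff_mem.1 (by simpa using h0)))

theorem nn_notMem_sq (I : Ideal A) (hI : I ≠ ⊤) : pp * qq ∉ I ^ 2 := by
  intro h
  obtain ⟨g, hg⟩ := (IsPrincipalIdealRing.principal I).principal
  have hg' : I = Ideal.span {g} := hg
  rw [hg', Ideal.span_singleton_pow, Ideal.mem_span_singleton] at h
  have hsep : (pp * qq).Separable := by
    rw [Polynomial.separable_def, nn_eq']
    have h8 : (8 : A) = 0 := by
      have : (2 : A) = 0 := by simpa [one_add_one_eq_two] using add_self_A 1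
      linear_combination 4 * this
    have : derivative (X ^ 8 + X + 1 : A) = 1 := by
      simp only [derivative_add, derivative_X_pow, derivative_X, derivative_one, add_zero]
      have : (C ((8 : ℕ) : ZMod 2) : A) = 0 := by
        have : ((8 : ℕ) : ZMod 2) = 0 := by decide
        rw [this, map_zero]
      rw [this]; simp
    rw [this]
    exact isCoprime_one_right
  have hu : IsUnit g := hsep.squarefree g (by rwa [← sq])
  exact hI (by rw [hg', Ideal.span_singleton_eq_top]; exact hu)

/-- Every class modulo a nonzero prime is a square. -/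
theorem exists_sq (v : IsDedekindDomain.HeightOneSpectrum A) (n : A) :
    ∃ u : A, u ^ 2 + n ∈ v.asIdeal := by
  have := v.isPrime
  have : Finite (A ⧸ v.asIdeal) := by
    obtain ⟨g, hg⟩ := (IsPrincipalIdealRing.principal v.asIdeal).principal
    have hg' : v.asIdeal = Ideal.span {g} := hg
    have hg0 : g ≠ 0 := by
      rintro rfl
      exact v.ne_bot (by rw [hg']; simp)
    rw [hg']
    have : Module.Finite (ZMod 2) (A ⧸ Ideal.span {g}) := (AdjoinRoot.powerBasis hg0).finite
    exact Module.finite_of_finite (ZMod 2)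
  let m := Ideal.Quotient.mk v.asIdeal
  have h2 : (2 : A ⧸ v.asIdeal) = 0 := by
    have : (2 : A) = 0 := by simpa [one_add_one_eq_two] using add_self_A 1
    rw [← map_ofNat m 2, this, map_zero]
  have hinj : Function.Injective fun y : A ⧸ v.asIdeal => y ^ 2 := by
    intro y z h
    have h' : y ^ 2 = z ^ 2 := h
    have : (y - z) ^ 2 = 0 := by linear_combination h' + (z ^ 2 - y * z) * h2
    exact sub_eq_zero.1 (pow_eq_zero_iff (by norm_num) |>.1 this)
  obtain ⟨y, hy⟩ := Finite.surjective_of_injective hinj (m n)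
  obtain ⟨u, rfl⟩ := Ideal.Quotient.mk_surjective y
  refine ⟨u, Ideal.Quotient.eq_zero_iff_mem.1 ?_⟩
  have hy' : m u ^ 2 = m n := hy
  rw [map_add, map_pow]
  change m u ^ 2 + m n = 0
  linear_combination hy' + m n * h2

section Local
variable (v : IsDedekindDomain.HeightOneSpectrum A)

theorem val_alg (f : A) :
    Valued.v (algebraMap A (v.adicCompletion FF) f) = v.intValuation f := by
  rw [← v.valuation_of_algebraMap (K := FF)]
  exact IsDedekindDomain.HeightOneSpectrum.valuedAdicCompletion_eq_valuation' v _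

theorem two_eq : (2 : v.adicCompletion FF) = 0 := by
  have : (2 : A) = 0 := by simpa [one_add_one_eq_two] using add_self_A 1
  rw [← map_ofNat (algebraMap A (v.adicCompletion FF)) 2, this, map_zero]

theorem exists_near (y : v.adicCompletion FF) (hy : Valued.v y ≤ 1) :
    ∃ a : A, Valued.v (algebraMap A (v.adicCompletion FF) a - y) < 1 := by
  have hnh : {z : v.adicCompletion FF | Valued.v (z - y) < 1} ∈ 𝓝 y := by
    rw [Valued.mem_nhds]
    refine ⟨1, fun z hz => ?_⟩
    simpa using hz
  obtain ⟨k, hk⟩ :=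
    (IsDedekindDomain.HeightOneSpectrum.denseRange_algebraMap FF v).mem_nhds hnh
  have hk' : Valued.v (algebraMap FF (v.adicCompletion FF) k - y) < 1 := hk
  have hv : ∀ k : FF, Valued.v (algebraMap FF (v.adicCompletion FF) k) = v.valuation FF k :=
    fun k => IsDedekindDomain.HeightOneSpectrum.valuedAdicCompletion_eq_valuation' v k
  have hk1 : v.valuation FF k ≤ 1 := by
    rw [← hv, ← sub_add_cancel (algebraMap FF (v.adicCompletion FF) k) y]
    exact Valuation.map_add_le _ hk'.le hy
  obtain ⟨a, ha⟩ := v.exists_valuation_sub_lt_of_integer hk1 1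
  refine ⟨a, ?_⟩
  rw [← hv, map_sub, ← IsScalarTower.algebraMap_apply] at ha
  have := Valuation.map_add_lt _ ha hk'
  simpa using this

end Local

theorem ram' : RAM := by
  intro v
  have h2 := two_eq v
  have ht : Valued.v (algebraMap A (v.adicCompletion FF) X) ≤ 1 := by
    rw [val_alg]; exact v.intValuation_le_one _
  constructor
  · intro h
    by_contra hn
    obtain ⟨u, hu⟩ := exists_sq v (pp * qq)
    have hu1 : u ∉ v.asIdeal := by
      intro hu'
      apply hn
      have := v.asIdeal.sub_mem hu (v.asIdeal.pow_mem_of_mem hu' 2 (by norm_num))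
      simpa using this
    set U := algebraMap A (v.adicCompletion FF) u with hU
    set t := algebraMap A (v.adicCompletion FF) X with htt
    set n := algebraMap A (v.adicCompletion FF) (pp * qq) with hnn
    have hU1 : Valued.v U = 1 := by
      rw [hU, val_alg]; exact IsDedekindDomain.HeightOneSpectrum.intValuation_eq_one_iff.2 hu1
    have hU0 : U ≠ 0 := by
      rintro h0
      simp [h0] at hU1
    have hc : Valued.v (U ^ 2 + n) < 1 := by
      rw [hU, hnn, ← map_pow, ← map_add, val_alg]
      exact (v.intValuation_lt_one_iff_mem _).2 hu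
    obtain ⟨y, hy⟩ := exists_root h2 (t / U) ((U ^ 2 + n) / U)
      (by rw [map_div₀, hU1, div_one]; exact ht) (by rw [map_div₀, hU1, div_one]; exact hc)
    have hy' : U * y = U ^ 2 + n + t * y ^ 2 := by
      conv_lhs => rw [hy]
      field_simp
    let x : Quat (v.adicCompletion FF) := ⟨U, y, 1, 0⟩
    have hx0 : x ≠ 0 := by
      intro h0
      have := congrArg QuaternionAlgebra.imJ h0
      simp [x] at this
    have hs : x * star x = 0 := by
      rw [mul_star_eq _ _ h2]
      have : x.re ^ 2 + x.re * x.imI + t * x.imI ^ 2 +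
          n * (x.imJ ^ 2 + x.imJ * x.imK + t * x.imK ^ 2) = 0 := by
        simp only [x]
        linear_combination hy' + (U ^ 2 + n + t * y ^ 2) * h2
      rw [this, map_zero]
    have hst : star x = 0 := ((h x hx0).mul_right_eq_zero).1 hs
    exact hx0 (star_eq_zero.1 hst)
  · intro hn x hx
    have htop : v.asIdeal ≠ ⊤ := v.isPrime.ne_top
    have han : ∀ y : v.adicCompletion FF, Valued.v y ≤ 1 →
        Valued.v (y ^ 2 + y + algebraMap A (v.adicCompletion FF) X) = 1 := by
      intro y hy
      obtain ⟨a, ha⟩ := exists_near v y hy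
      set b := algebraMap A (v.adicCompletion FF) a with hb
      have h1 : Valued.v (b ^ 2 + b + algebraMap A (v.adicCompletion FF) X) = 1 := by
        rw [hb, ← map_pow, ← map_add, ← map_add, val_alg]
        exact IsDedekindDomain.HeightOneSpectrum.intValuation_eq_one_iff.2
          (no_root _ htop hn a)
      have e : y ^ 2 + y + algebraMap A (v.adicCompletion FF) X =
          (b ^ 2 + b + algebraMap A (v.adicCompletion FF) X) + ((b - y) ^ 2 + (b - y)) := by
        linear_combination (y + b * y - b ^ 2 - b) * h2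
      have h3 : Valued.v ((b - y) ^ 2 + (b - y)) < 1 := by
        refine Valuation.map_add_lt _ ?_ ha
        rw [map_pow]
        exact pow_lt_one₀ zero_le ha (by norm_num)
      rw [e, Valuation.map_add_eq_of_lt_left _ (by rw [h1]; exact h3), h1]
    have hvn : Valued.v (algebraMap A (v.adicCompletion FF) (pp * qq)) = exp (-1) := by
      rw [val_alg]
      have h1 : v.intValuation (pp * qq) ≤ exp (-((1 : ℕ) : ℤ)) :=
        (v.intValuation_le_pow_iff_mem _ 1).2 (by simpa using hn)
      have h3 : ¬ v.intValuation (pp * qq) ≤ exp (-((2 : ℕ) : ℤ)) := fun h =>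
        nn_notMem_sq _ htop ((v.intValuation_le_pow_iff_mem _ 2).1 h)
      have h0 : v.intValuation (pp * qq) ≠ 0 := by
        intro h0
        exact h3 (by rw [h0]; exact zero_le)
      rw [← exp_log h0] at h1 h3 ⊢
      rw [exp_le_exp] at h1 h3
      rw [exp_inj]
      omega
    refine isUnit_of_nrd _ _ h2 x ?_
    intro h0
    have e : x.re ^ 2 + x.re * x.imI + algebraMap A (v.adicCompletion FF) X * x.imI ^ 2 =
        algebraMap A (v.adicCompletion FF) (pp * qq) * (x.imJ ^ 2 + x.imJ * x.imK +
          algebraMap A (v.adicCompletion FF) X * x.imK ^ 2) := by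
      linear_combination h0 - (algebraMap A (v.adicCompletion FF) (pp * qq) *
        (x.imJ ^ 2 + x.imJ * x.imK + algebraMap A (v.adicCompletion FF) X * x.imK ^ 2)) * h2
    have e' := congrArg Valued.v e
    rw [Valuation.map_mul, val_form _ ht han, val_form _ ht han, hvn] at e'
    obtain ⟨h1, h3⟩ := sq_ne _ _ e'
    apply hx
    have z1 : x.re = 0 := by simpa using (le_max_left _ _).trans h1.le
    have z2 : x.imI = 0 := by simpa using (le_max_right _ _).trans h1.le
    have z3 : x.imJ = 0 := by simpa using (le_max_left _ _).trans h3.le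
    have z4 : x.imK = 0 := by simpa using (le_max_right _ _).trans h3.le
    ext <;> simp [z1, z2, z3, z4]

theorem ram (_h : IRR) : RAM := ram'

end Pool.Agent.MP_a88b1d_nt.H48
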